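import Pool.Agent.Helper69.QG.St2

/-! # Project QD, part C, geometric half: module FLD -/

open Complex Set Metric
open scoped ComplexConjugate

namespace Pool.Agent.Helper60.QG

open Pool.Agent.Helper69.QG

private theorem gen_gen (s : Fin 4) : gen s * gen s = 1 := cs.simple_mul_simple_self s

open Classical in
private noncomputable def GG {Y : Type} (r : Ev →* Equiv.Perm Y) (f0 f1 : DD → Y)
    (hev : ∀ w : W, w ∈ Ev ∨ w * gen 0 ∈ Ev) (w : W) (p : DD) : Y :=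
  if h : w ∈ Ev then r ⟨w, h⟩ (f0 p) else r ⟨w * gen 0, (hev w).resolve_left h⟩ (f1 p)

private theorem GG_even {Y : Type} {r : Ev →* Equiv.Perm Y} {f0 f1 : DD → Y}
    {hev : ∀ w : W, w ∈ Ev ∨ w * gen 0 ∈ Ev} {w : W} (h : w ∈ Ev) (p : DD) :
    GG r f0 f1 hev w p = r ⟨w, h⟩ (f0 p) := dif_pos h

private theorem GG_odd {Y : Type} {r : Ev →* Equiv.Perm Y} {f0 f1 : DD → Y}
    {hev : ∀ w : W, w ∈ Ev ∨ w * gen 0 ∈ Ev} {w : W} (h : w ∉ Ev) (h' : w * gen 0 ∈ Ev) (p : DD) :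
    GG r f0 f1 hev w p = r ⟨w * gen 0, h'⟩ (f1 p) := dif_neg h

private theorem r_mul {Y : Type} (r : Ev →* Equiv.Perm Y) {a b c : W} (ha : a ∈ Ev) (hb : b ∈ Ev)
    (hc : c ∈ Ev) (h : c = a * b) (y : Y) : r ⟨c, hc⟩ y = r ⟨a, ha⟩ (r ⟨b, hb⟩ y) := by
  have h1 : (⟨c, hc⟩ : Ev) = ⟨a, ha⟩ * ⟨b, hb⟩ := Subtype.ext h
  rw [h1, map_mul]
  rfl

theorem cFLD (stz : St_STZ) (cvr : St_CVR) (evl : St_EVL) : St_FLD := by
  intro Y r f0 f1 H
  have hs0 : ∀ s, gen s * gen 0 ∈ Ev := evl.1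
  have hev : ∀ w : W, w ∈ Ev ∨ w * gen 0 ∈ Ev := evl.2.2.2.1
  have hgen : ∀ s, gen s ∉ Ev := evl.2.2.2.2
  -- one generator
  have step : ∀ (w : W) (s : Fin 4) (p : DD), p ∈ Pc → act (gen s) p = p →
      GG r f0 f1 hev (w * gen s) p = GG r f0 f1 hev w p := by
    intro w s p hp hfix
    have hH := H s (hs0 s) p hp hfix
    by_cases hw : w ∈ Ev
    · have h1 : w * gen s ∉ Ev := by
        intro h
        apply hgen s
        have := Ev.mul_mem (Ev.inv_mem hw) h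
        rwa [inv_mul_cancel_left] at this
      have h2 : w * gen s * gen 0 ∈ Ev := (hev _).resolve_left h1
      rw [GG_odd h1 h2, GG_even hw, r_mul r hw (hs0 s) h2 (mul_assoc _ _ _), hH]
    · have h0 : w * gen 0 ∈ Ev := (hev w).resolve_left hw
      have e : w * gen 0 = w * gen s * (gen s * gen 0) := by
        rw [mul_assoc, ← mul_assoc (gen s) (gen s), gen_gen, one_mul]
      have h1 : w * gen s ∈ Ev := by
        have h3 : w * gen s = w * gen 0 * (gen s * gen 0)⁻¹ := by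
          rw [e, mul_inv_cancel_right]
        rw [h3]
        exact Ev.mul_mem h0 (Ev.inv_mem (hs0 s))
      rw [GG_even h1, GG_odd hw h0, r_mul r h1 (hs0 s) h0 e, hH]
  have clos : ∀ (p : DD), p ∈ Pc → ∀ v ∈ Subgroup.closure {v : W | ∃ s, v = gen s ∧
      act (gen s) p = p}, ∀ w, GG r f0 f1 hev (w * v) p = GG r f0 f1 hev w p := by
    intro p hp v hv
    induction hv using Subgroup.closure_induction with
    | mem x hx =>
      intro w
      obtain ⟨s, rfl, hs⟩ := hx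
      exact step w s p hp hs
    | one =>
      intro w
      rw [mul_one]
    | mul x y _ _ hx hy =>
      intro w
      rw [← mul_assoc, hy, hx]
    | inv x _ hx =>
      intro w
      rw [← hx (w * x⁻¹), inv_mul_cancel_right]
  have well : ∀ (w w' : W) (p p' : DD), p ∈ Pc → p' ∈ Pc → act w p = act w' p' →
      GG r f0 f1 hev w p = GG r f0 f1 hev w' p' := by
    intro w w' p p' hp hp' h
    have h1 : act (w'⁻¹ * w) p = p' := by
      rw [map_mul, Equiv.Perm.mul_apply, h, ← Equiv.Perm.mul_apply, ← map_mul, inv_mul_cancel,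
        map_one]
      rfl
    obtain ⟨h2, h3⟩ := stz.1 (w'⁻¹ * w) p hp (by rw [h1]; exact hp')
    have h4 : p' = p := by rw [← h1, h2]
    have h5 := clos p hp _ h3 w'
    rw [mul_inv_cancel_left] at h5
    rw [h5, h4]
  choose w0 hw0 using cvr
  have hback : ∀ z : DD, act (w0 z)⁻¹ (act (w0 z) z) = z := by
    intro z
    rw [← Equiv.Perm.mul_apply, ← map_mul, inv_mul_cancel, map_one]
    rfl
  have hF : ∀ (z : DD) (w : W) (p : DD), p ∈ Pc → act w p = z →
      GG r f0 f1 hev (w0 z)⁻¹ (act (w0 z) z) = GG r f0 f1 hev w p := by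
    intro z w p hp h
    exact well _ _ _ _ (hw0 z) hp (by rw [hback, h])
  refine ⟨fun z => GG r f0 f1 hev (w0 z)⁻¹ (act (w0 z) z), ?_, ?_, ?_⟩
  · intro z hz
    change GG r f0 f1 hev (w0 z)⁻¹ (act (w0 z) z) = f0 z
    rw [hF z 1 z hz (by rw [map_one]; rfl), GG_even Ev.one_mem]
    have h1 : (⟨1, Ev.one_mem⟩ : Ev) = 1 := rfl
    rw [h1, map_one]
    rfl
  · intro z hz
    change GG r f0 f1 hev (w0 (act (gen 0) z))⁻¹ (act (w0 (act (gen 0) z)) (act (gen 0) z)) = f1 z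
    rw [hF _ (gen 0) z hz rfl, GG_odd (hgen 0) (hs0 0)]
    have h1 : (⟨gen 0 * gen 0, hs0 0⟩ : Ev) = 1 := Subtype.ext (gen_gen 0)
    rw [h1, map_one]
    rfl
  · intro w z
    change GG r f0 f1 hev (w0 (act (w : W) z))⁻¹ (act (w0 (act (w : W) z)) (act (w : W) z)) =
      r w (GG r f0 f1 hev (w0 z)⁻¹ (act (w0 z) z))
    rw [hF (act (w : W) z) ((w : W) * (w0 z)⁻¹) (act (w0 z) z) (hw0 z)
      (by rw [map_mul, Equiv.Perm.mul_apply, hback])]
    by_cases h : (w0 z)⁻¹ ∈ Ev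
    · rw [GG_even h, GG_even (Ev.mul_mem w.2 h),
        r_mul r w.2 h (Ev.mul_mem w.2 h) rfl]
    · have h0 : (w0 z)⁻¹ * gen 0 ∈ Ev := (hev _).resolve_left h
      have h1 : (w : W) * (w0 z)⁻¹ ∉ Ev := by
        intro h2
        apply h
        have := Ev.mul_mem (Ev.inv_mem w.2) h2
        rwa [inv_mul_cancel_left] at this
      have h2 : (w : W) * (w0 z)⁻¹ * gen 0 ∈ Ev := (hev _).resolve_left h1
      rw [GG_odd h h0, GG_odd h1 h2, r_mul r w.2 h0 h2 (mul_assoc _ _ _)]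

end Pool.Agent.Helper60.QG
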