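import Pool.Agent.Helper69.QG.St1

/-! # Project QD, part C, geometric half: module PBD -/

open Complex Set Metric
open scoped ComplexConjugate

namespace Pool.Agent.Helper60.QG

open Pool.Agent.Helper69.QG

private theorem C0_sq : C0 ^ 2 = 1 + Real.sqrt 2 := by
  have h := sqrt2_pos
  unfold C0
  rw [div_pow, kp_sq, sg_sq]
  field_simp
  ring

private theorem tau_C0 : tau * C0 = 1 := by
  have h1 := sg_pos.ne'
  have h2 := kp_pos.ne'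
  unfold tau C0
  field_simp

private theorem sqrt2_sq : Real.sqrt 2 ^ 2 = 2 := Real.sq_sqrt (by norm_num)

private theorem tau_sq : tau ^ 2 = Real.sqrt 2 - 1 := by
  have h1 : tau ^ 2 * C0 ^ 2 = 1 := by rw [← mul_pow, tau_C0, one_pow]
  have h2 : (Real.sqrt 2 - 1) * C0 ^ 2 = 1 := by
    rw [C0_sq]
    nlinarith [sqrt2_sq]
  have h3 : C0 ^ 2 ≠ 0 := (pow_pos C0_pos 2).ne'
  exact mul_right_cancel₀ h3 (h1.trans h2.symm)

private theorem lf0 (z : ℂ) : lf (Xm z) (ev 0) = 2 * z.re / (1 - ‖z‖ ^ 2) := by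
  simp [lf, Xm, ev]

private theorem lf2 (z : ℂ) : lf (Xm z) (ev 2) = 2 * z.im / (1 - ‖z‖ ^ 2) := by
  simp [lf, Xm, ev]

private theorem lf1 (z : ℂ) : lf (Xm z) (ev 1)
    = (sg * (1 + ‖z‖ ^ 2 - 2 * C0 * z.re)) / (1 - ‖z‖ ^ 2) := by
  have h : kp = C0 * sg := by
    have := sg_pos.ne'
    unfold C0
    field_simp
  simp only [lf, Xm, ev, Matrix.cons_val_zero, Matrix.cons_val_one, Matrix.cons_val, h]
  ring

private theorem lf3 (z : ℂ) : lf (Xm z) (ev 3)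
    = (sg * (1 + ‖z‖ ^ 2 - 2 * C0 * z.im)) / (1 - ‖z‖ ^ 2) := by
  have h : kp = C0 * sg := by
    have := sg_pos.ne'
    unfold C0
    field_simp
  simp only [lf, Xm, ev, Matrix.cons_val_zero, Matrix.cons_val_one, Matrix.cons_val, h]
  ring

private theorem pos_DD (z : DD) : 0 < 1 - ‖(z : ℂ)‖ ^ 2 := by
  have h := lt_one_of_mem z.2
  rw [← nsq] at h
  linarith

private theorem Pc_iff (z : DD) : z ∈ Pc ↔ (0 ≤ (z : ℂ).re ∧ 0 ≤ (z : ℂ).im ∧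
    2 * C0 * (z : ℂ).re ≤ 1 + ‖(z : ℂ)‖ ^ 2 ∧ 2 * C0 * (z : ℂ).im ≤ 1 + ‖(z : ℂ)‖ ^ 2) := by
  have hz := pos_DD z
  have hs := sg_pos
  have e0 : 0 ≤ lf (Xm z) (ev 0) ↔ 0 ≤ (z : ℂ).re := by
    rw [lf0, le_div_iff₀ hz, zero_mul]
    constructor <;> intro h <;> linarith
  have e2 : 0 ≤ lf (Xm z) (ev 2) ↔ 0 ≤ (z : ℂ).im := by
    rw [lf2, le_div_iff₀ hz, zero_mul]
    constructor <;> intro h <;> linarith
  have e1 : 0 ≤ lf (Xm z) (ev 1) ↔ 2 * C0 * (z : ℂ).re ≤ 1 + ‖(z : ℂ)‖ ^ 2 := by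
    rw [lf1, le_div_iff₀ hz, zero_mul, mul_nonneg_iff_of_pos_left hs, sub_nonneg]
  have e3 : 0 ≤ lf (Xm z) (ev 3) ↔ 2 * C0 * (z : ℂ).im ≤ 1 + ‖(z : ℂ)‖ ^ 2 := by
    rw [lf3, le_div_iff₀ hz, zero_mul, mul_nonneg_iff_of_pos_left hs, sub_nonneg]
  constructor
  · intro h
    exact ⟨e0.1 (h 0), e2.1 (h 2), e1.1 (h 1), e3.1 (h 3)⟩
  · rintro ⟨h0, h2, h1, h3⟩ s
    fin_cases s
    · exact e0.2 h0
    · exact e1.2 h1
    · exact e2.2 h2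
    · exact e3.2 h3

private theorem bound {x y n : ℝ} (hn : n = x ^ 2 + y ^ 2) (h1 : n < 1) (hx : 0 ≤ x) (hy : 0 ≤ y)
    (ha : 2 * C0 * x ≤ 1 + n) (hb : 2 * C0 * y ≤ 1 + n) : n ≤ Real.sqrt 2 - 1 := by
  have hC := C0_pos
  have a1 : (2 * C0 * x) ^ 2 ≤ (1 + n) ^ 2 := pow_le_pow_left₀ (by positivity) ha 2
  have b1 : (2 * C0 * y) ^ 2 ≤ (1 + n) ^ 2 := pow_le_pow_left₀ (by positivity) hb 2
  have c1 : 2 * C0 ^ 2 * n ≤ (1 + n) ^ 2 := by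
    rw [hn] at *
    nlinarith
  rw [C0_sq] at c1
  have s2 := sqrt2_sq
  have sp := sqrt2_pos
  by_contra hcon
  push Not at hcon
  have h3 : (n - (Real.sqrt 2 - 1)) * ((Real.sqrt 2 + 1) - n) > 0 :=
    mul_pos (by linarith) (by linarith)
  nlinarith

private theorem Pc_bound (z : DD) (hz : z ∈ Pc) : ‖(z : ℂ)‖ ^ 2 ≤ Real.sqrt 2 - 1 := by
  obtain ⟨h0, h2, h1, h3⟩ := (Pc_iff z).1 hz
  exact bound (nsq _) (by linarith [pos_DD z]) h0 h2 h1 h3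

private theorem Po_nonempty : Po.Nonempty := by
  have hre : ((⟨1 / 10, 1 / 10⟩ : ℂ)).re = 1 / 10 := rfl
  have him : ((⟨1 / 10, 1 / 10⟩ : ℂ)).im = 1 / 10 := rfl
  have hn : ‖(⟨1 / 10, 1 / 10⟩ : ℂ)‖ ^ 2 = 1 / 50 := by
    rw [nsq]
    norm_num
  have hmem : (⟨1 / 10, 1 / 10⟩ : ℂ) ∈ ball (0 : ℂ) 1 := by
    apply mem_of_lt_one
    norm_num
  have hC : C0 < 2 := by
    have h1 := C0_sq
    have h2 : Real.sqrt 2 < 2 := by
      nlinarith [sqrt2_sq, sqrt2_pos]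
    nlinarith [C0_pos]
  have hs := sg_pos
  refine ⟨⟨_, hmem⟩, ?_⟩
  intro s
  change 0 < lf (Xm (⟨1 / 10, 1 / 10⟩ : ℂ)) (ev s)
  fin_cases s
  · change 0 < lf (Xm (⟨1 / 10, 1 / 10⟩ : ℂ)) (ev 0)
    rw [lf0, hn, hre]
    norm_num
  · change 0 < lf (Xm (⟨1 / 10, 1 / 10⟩ : ℂ)) (ev 1)
    rw [lf1, hn, hre]
    apply div_pos (mul_pos hs _) (by norm_num)
    linarith
  · change 0 < lf (Xm (⟨1 / 10, 1 / 10⟩ : ℂ)) (ev 2)
    rw [lf2, hn, him]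
    norm_num
  · change 0 < lf (Xm (⟨1 / 10, 1 / 10⟩ : ℂ)) (ev 3)
    rw [lf3, hn, him]
    apply div_pos (mul_pos hs _) (by norm_num)
    linarith

private theorem Pc_compact : IsCompact Pc := by
  rw [Subtype.isCompact_iff]
  have him : (Subtype.val '' Pc : Set ℂ) = {z : ℂ | 0 ≤ z.re ∧ 0 ≤ z.im ∧
      2 * C0 * z.re ≤ 1 + ‖z‖ ^ 2 ∧ 2 * C0 * z.im ≤ 1 + ‖z‖ ^ 2 ∧
      ‖z‖ ^ 2 ≤ Real.sqrt 2 - 1} := by
    ext z
    constructor
    · rintro ⟨w, hw, rfl⟩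
      obtain ⟨h0, h2, h1, h3⟩ := (Pc_iff w).1 hw
      exact ⟨h0, h2, h1, h3, Pc_bound w hw⟩
    · rintro ⟨h0, h2, h1, h3, h4⟩
      have hm : z ∈ ball (0 : ℂ) 1 := by
        apply mem_of_lt_one
        rw [← nsq]
        have h5 : Real.sqrt 2 < 2 := by
          nlinarith [sqrt2_sq, sqrt2_pos]
        linarith
      exact ⟨⟨z, hm⟩, (Pc_iff ⟨z, hm⟩).2 ⟨h0, h2, h1, h3⟩, rfl⟩
  rw [him]
  refine Metric.isCompact_of_isClosed_isBounded ?_ ?_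
  · refine IsClosed.and ?_ (IsClosed.and ?_ (IsClosed.and ?_ (IsClosed.and ?_ ?_)))
    · exact isClosed_le continuous_const Complex.continuous_re
    · exact isClosed_le continuous_const Complex.continuous_im
    · exact isClosed_le (continuous_const.mul Complex.continuous_re) (by fun_prop)
    · exact isClosed_le (continuous_const.mul Complex.continuous_im) (by fun_prop)
    · exact isClosed_le (by fun_prop) continuous_const
  · refine (Metric.isBounded_closedBall (x := (0 : ℂ)) (r := 1)).subset ?_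
    rintro z ⟨_, _, _, _, h4⟩
    rw [mem_closedBall_zero_iff]
    have h5 : Real.sqrt 2 < 2 := by
      nlinarith [sqrt2_sq, sqrt2_pos]
    nlinarith [norm_nonneg z]

theorem cPBD : St_PBD :=
  ⟨Pc_iff, Pc_bound, Po_nonempty, Pc_compact, C0_sq, tau_sq, tau_C0⟩

end Pool.Agent.Helper60.QG
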